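import Mathlib

/-!
# Paths that are IR-graphs

For `n = 7, 8, 9` there is a graph on nine vertices whose IR-graph is the path `P_n`.
-/

set_option autoImplicit false

namespace Pool.Agent.Results.MP_cd4b59_co.IRPaths

/-- `w` is a `D`-private neighbour of `v`: `w = v` or `w` is adjacent to `v`, and no vertex of
`D - {v}` equals or is adjacent to `w`. -/
def IsPrivate {V : Type*} (G : SimpleGraph V) (D : Finset V) (v w : V) : Prop :=
  (w = v ∨ G.Adj w v) ∧ ∀ u ∈ D, u ≠ v → ¬ (u = w ∨ G.Adj u w)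

/-- `D` is irredundant: every vertex of `D` has a `D`-private neighbour. -/
def IsIrredundant {V : Type*} (G : SimpleGraph V) (D : Finset V) : Prop :=
  ∀ v ∈ D, ∃ w, IsPrivate G D v w

/-- The upper irredundance number: the maximum size of an irredundant set. -/
noncomputable def IR {V : Type*} (G : SimpleGraph V) : ℕ :=
  sSup {k | ∃ D : Finset V, IsIrredundant G D ∧ D.card = k}

/-- The `IR(G)`-sets: the irredundant sets of size `IR(G)`. -/
def IRSet {V : Type*} (G : SimpleGraph V) : Type _ :=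
  {D : Finset V // IsIrredundant G D ∧ D.card = IR G}

/-- The IR-graph of `G`: two `IR(G)`-sets `D`, `D'` are adjacent when there are `u ∈ D` and
`v ∈ D' - {u}` with `uv` an edge of `G` and `D' = (D - {u}) ∪ {v}` (and `D ≠ D'`). -/
def irGraph {V : Type*} [DecidableEq V] (G : SimpleGraph V) : SimpleGraph (IRSet G) where
  Adj D D' := D.1 ≠ D'.1 ∧ ∃ u ∈ D.1, ∃ v ∈ D'.1, v ≠ u ∧ G.Adj u v ∧
    D'.1 = insert v (D.1.erase u)
  symm := ⟨by
    rintro S T ⟨hne, u, hu, v, hv, hvu, huv, hT⟩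
    refine ⟨hne.symm, v, hv, u, hu, hvu.symm, huv.symm, ?_⟩
    have hvS : v ∉ S.1 := by
      intro hvS
      have h1 : insert v (S.1.erase u) = S.1.erase u :=
        Finset.insert_eq_of_mem (Finset.mem_erase.2 ⟨hvu, hvS⟩)
      have h2 : T.1.card = S.1.card := by rw [S.2.2, T.2.2]
      rw [hT, h1, Finset.card_erase_of_mem hu] at h2
      have : 0 < S.1.card := Finset.card_pos.2 ⟨u, hu⟩
      omega
    rw [hT, Finset.erase_insert (fun h => hvS (Finset.mem_of_mem_erase h)),
      Finset.insert_erase hu]⟩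
  loopless := ⟨fun S h => h.1 rfl⟩

/-- The graph on nine vertices with a given list of edges. -/
def ofList (L : List (Fin 9 × Fin 9)) : SimpleGraph (Fin 9) :=
  SimpleGraph.fromRel (fun a b => (a, b) ∈ L)

instance (L : List (Fin 9 × Fin 9)) : DecidableRel (ofList L).Adj := by
  intro a b
  unfold ofList
  rw [SimpleGraph.fromRel_adj]
  infer_instance

instance {V : Type*} [Fintype V] [DecidableEq V] (K : SimpleGraph V) [DecidableRel K.Adj]
    (S : Finset V) (v w : V) : Decidable (IsPrivate K S v w) := by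
  unfold IsPrivate
  infer_instance

instance {V : Type*} [Fintype V] [DecidableEq V] (K : SimpleGraph V) [DecidableRel K.Adj]
    (S : Finset V) : Decidable (IsIrredundant K S) := by
  unfold IsIrredundant
  infer_instance

/-- Subsets of irredundant sets are irredundant. -/
lemma IsIrredundant.mono {V : Type*} {G : SimpleGraph V} {D D' : Finset V}
    (h : IsIrredundant G D) (hs : D' ⊆ D) : IsIrredundant G D' := by
  intro v hv
  obtain ⟨w, hw1, hw2⟩ := h v (hs hv)
  exact ⟨w, hw1, fun u hu => hw2 u (hs hu)⟩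

/-- Criterion for the IR-graph to be a path. -/
lemma path_of {n : ℕ} (K : SimpleGraph (Fin 9)) [DecidableRel K.Adj]
    (sets : Fin n → Finset (Fin 9)) (i0 : Fin n)
    (h3 : ∀ i, IsIrredundant K (sets i) ∧ (sets i).card = 3)
    (h4 : ∀ a b c d : Fin 9, a < b → b < c → c < d → ¬ IsIrredundant K {a, b, c, d})
    (hall : ∀ a b c : Fin 9, a < b → b < c → IsIrredundant K {a, b, c} →
      ∃ i, sets i = ({a, b, c} : Finset (Fin 9)))
    (hinj : ∀ i j, sets i = sets j → i = j)
    (hadj : ∀ i j : Fin n, (i.val + 1 = j.val ∨ j.val + 1 = i.val) ↔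
      (sets i ≠ sets j ∧ ∃ u ∈ sets i, ∃ v ∈ sets j, v ≠ u ∧ K.Adj u v ∧
        sets j = insert v ((sets i).erase u))) :
    Nonempty (irGraph K ≃g SimpleGraph.pathGraph n) := by
  have hle : ∀ D : Finset (Fin 9), IsIrredundant K D → D.card ≤ 3 := by
    intro D hD
    by_contra hlt
    push Not at hlt
    obtain ⟨T, hT, hT4⟩ := Finset.exists_subset_card_eq (s := D) (n := 4) (by omega)
    have hirr := hD.mono hT
    obtain ⟨f, hf⟩ : ∃ f : Fin 4 ↪o Fin 9, Finset.univ.map f.toEmbedding = T := by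
      refine ⟨T.orderEmbOfFin hT4, ?_⟩
      exact Finset.map_orderEmbOfFin_univ T hT4
    have h5 : T = {f 0, f 1, f 2, f 3} := by
      rw [← hf]
      ext x
      simp only [Finset.mem_map, Finset.mem_univ, true_and, RelEmbedding.coe_toEmbedding,
        Finset.mem_insert, Finset.mem_singleton]
      constructor
      · rintro ⟨a, rfl⟩
        fin_cases a <;> simp
      · rintro (rfl | rfl | rfl | rfl)
        · exact ⟨0, rfl⟩
        · exact ⟨1, rfl⟩
        · exact ⟨2, rfl⟩
        · exact ⟨3, rfl⟩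
    rw [h5] at hirr
    exact h4 _ _ _ _ (f.lt_iff_lt.2 (by decide)) (f.lt_iff_lt.2 (by decide))
      (f.lt_iff_lt.2 (by decide)) hirr
  have hIR : IR K = 3 := by
    have hne : {k | ∃ D : Finset (Fin 9), IsIrredundant K D ∧ D.card = k}.Nonempty :=
      ⟨3, sets i0, h3 i0⟩
    apply le_antisymm
    · apply csSup_le hne
      rintro k ⟨D, hD, rfl⟩
      exact hle D hD
    · apply le_csSup
      · refine ⟨3, ?_⟩
        rintro k ⟨D, hD, rfl⟩
        exact hle D hD
      · exact ⟨sets i0, h3 i0⟩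
  have hb : Function.Bijective (fun i : Fin n =>
      (⟨sets i, (h3 i).1, by rw [hIR]; exact (h3 i).2⟩ : IRSet K)) := by
    constructor
    · intro i j hij
      exact hinj i j (congrArg Subtype.val hij)
    · rintro ⟨S, hS, hc⟩
      rw [hIR] at hc
      have h5 : S = {S.orderEmbOfFin hc 0, S.orderEmbOfFin hc 1, S.orderEmbOfFin hc 2} := by
        conv_lhs => rw [← Finset.map_orderEmbOfFin_univ S hc]
        ext x
        simp only [Finset.mem_map, Finset.mem_univ, true_and, RelEmbedding.coe_toEmbedding,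
          Finset.mem_insert, Finset.mem_singleton]
        constructor
        · rintro ⟨a, rfl⟩
          fin_cases a <;> simp
        · rintro (rfl | rfl | rfl)
          · exact ⟨0, rfl⟩
          · exact ⟨1, rfl⟩
          · exact ⟨2, rfl⟩
      obtain ⟨i, hi⟩ := hall _ _ _ ((S.orderEmbOfFin hc).lt_iff_lt.2 (by decide))
        ((S.orderEmbOfFin hc).lt_iff_lt.2 (by decide)) (h5 ▸ hS)
      exact ⟨i, Subtype.ext (hi.trans h5.symm)⟩
  refine ⟨RelIso.symm ⟨Equiv.ofBijective _ hb, ?_⟩⟩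
  intro i j
  rw [SimpleGraph.pathGraph_adj]
  exact (hadj i j).symm

/-- First graph. -/
def K7 : SimpleGraph (Fin 9) := ofList
  [(0, 5), (0, 6), (0, 7), (0, 8), (1, 3), (1, 4), (1, 6), (1, 7), (1, 8), (2, 3), (2, 4), (2, 5),
    (2, 7), (2, 8), (3, 4), (3, 6), (3, 8), (4, 5), (4, 7), (5, 6), (5, 7), (6, 8)]

instance : DecidableRel K7.Adj := inferInstanceAs (DecidableRel (ofList _).Adj)

/-- Its IR-sets. -/
def sets7 : Fin 7 → Finset (Fin 9) :=
  ![{2, 4, 5}, {2, 5, 7}, {0, 2, 7}, {0, 1, 2}, {0, 1, 8}, {1, 6, 8}, {1, 3, 6}]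

/-- Second graph. -/
def K8 : SimpleGraph (Fin 9) := ofList
  [(0, 5), (0, 6), (0, 7), (0, 8), (1, 2), (1, 4), (1, 7), (1, 8), (2, 3), (2, 4), (2, 8), (3, 4),
    (3, 5), (3, 6), (3, 7), (4, 5), (4, 6), (5, 6), (5, 8), (6, 7), (7, 8)]

instance : DecidableRel K8.Adj := inferInstanceAs (DecidableRel (ofList _).Adj)

/-- Its IR-sets. -/
def sets8 : Fin 8 → Finset (Fin 9) :=
  ![{0, 1, 3}, {0, 1, 7}, {1, 7, 8}, {2, 7, 8}, {2, 5, 7}, {2, 3, 5}, {3, 4, 5}, {4, 5, 6}]

/-- Third graph. -/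
def K9 : SimpleGraph (Fin 9) := ofList
  [(0, 1), (0, 6), (0, 7), (0, 8), (1, 5), (1, 7), (1, 8), (2, 3), (2, 4), (2, 6), (2, 8), (3, 4),
    (3, 5), (3, 7), (4, 5), (4, 6), (5, 7), (5, 8), (6, 7), (6, 8)]

instance : DecidableRel K9.Adj := inferInstanceAs (DecidableRel (ofList _).Adj)

/-- Its IR-sets. -/
def sets9 : Fin 9 → Finset (Fin 9) :=
  ![{0, 2, 5}, {0, 2, 8}, {2, 6, 8}, {4, 6, 8}, {4, 7, 8}, {4, 5, 7}, {3, 5, 7}, {1, 3, 7},
    {1, 3, 6}]

set_option maxRecDepth 100000

lemma iso7 : Nonempty (irGraph K7 ≃g SimpleGraph.pathGraph 7) :=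
  path_of K7 sets7 0 (by decide +kernel) (by decide +kernel) (by decide +kernel)
    (by decide +kernel) (by decide +kernel)

lemma iso8 : Nonempty (irGraph K8 ≃g SimpleGraph.pathGraph 8) :=
  path_of K8 sets8 0 (by decide +kernel) (by decide +kernel) (by decide +kernel)
    (by decide +kernel) (by decide +kernel)

lemma iso9 : Nonempty (irGraph K9 ≃g SimpleGraph.pathGraph 9) :=
  path_of K9 sets9 0 (by decide +kernel) (by decide +kernel) (by decide +kernel)
    (by decide +kernel) (by decide +kernel)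

/-- The paths with `7`, `8` and `9` vertices are IR-graphs (of graphs with nine vertices). -/
theorem result : ∀ n : ℕ, n = 7 ∨ n = 8 ∨ n = 9 →
    ∃ G : SimpleGraph (Fin 9), Nonempty (irGraph G ≃g SimpleGraph.pathGraph n) := by
  rintro n (rfl | rfl | rfl)
  · exact ⟨K7, iso7⟩
  · exact ⟨K8, iso8⟩
  · exact ⟨K9, iso9⟩

end Pool.Agent.Results.MP_cd4b59_co.IRPaths
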